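import Pool.Agent.H698.UX.Up

set_option autoImplicit false

/-!
# Products over the field with two elements, circuits that compute with unknown inputs

An `n × n` matrix `M` over the field with two elements is known (unlimited preprocessing: the
circuits depend on `M` in any way), and `n` vectors are given, all at once.  Each entry of the
vectors is known to be one, known to be zero or unknown.  The gates have values in an ordered set `D`
of states of knowledge and apply arbitrary functions `D → D → D` that respect the order (more
knowledge about the arguments gives more knowledge about the value); `D` is any partially ordered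
set in which the elements below a given one form a chain of real numbers.

* If `D` is the flat order with the values `unknown`, `known true` and `known false` then these are
  the hazard-free (Kleene, three-valued) circuits with arbitrary binary gates, in particular with
  addition gates, each evaluated by its most precise extension.
* If `D` is the flat order over an arbitrary set `A` (words, vectors, ...) the gates may apply
  arbitrary functions `A → A → A` as soon as the arguments are known.

The circuit has to find the entry number `i` of `M v_j`, with advantage `δ` for each single entry,
as soon as the entries of `v_j` on which it depends are known; the other entries may be unknown.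

For all these models at once: for all but a fraction of `1 / n` of the matrices, randomised circuits
of this kind have an expected number of gates of at least `δ ^ 2 * n ^ 3 / (768 * (log₂ n) ^ 2)`,
which is `n ^ (3 - o(1))`.  The naive circuits have at most `2 * n ^ 3` gates.

Proof. Consider the inputs whose entries are known to be zero or unknown. An entry of the products
is determined if and only if no relevant entry of the vector is unknown, and otherwise the circuit
cannot say that it is zero, since some completion gives one. So the circuit computes the Boolean
product with the vectors of the unknown entries. All gate values are below the value for the zero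
vectors, so that they lie in a chain, in which the gate is simulated, in the reversed order, by one
monotone real gate. Then the lower bound for monotone real programs of
`Pool.Graph.R_seed8.H587R2.MRA` applies.
-/

namespace Pool.Agent.Results.MP_0f1f76_lc.UnknownInputCircuits

open Finset Pool.Agent.H698.HF Pool.Agent.H698.UX

open Classical in
/-- (1) Let `n ≥ 16`. For all but at most `2 ^ (n ^ 2) / n` of the `n × n` matrices `M` over the
field with two elements: if `32 log₂ n ≤ δ n` then for every tree-like order `D` of states of
knowledge every randomised circuit over `D` that computes every single entry of the products with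
`n` vectors with advantage `δ` (`SolvesX M δ p l`) has an expected number of gates of at least
`δ ^ 2 n ^ 3 / (768 (log₂ n) ^ 2)`. (2) For every `M` and `n ≥ 2` some three-valued circuit with at
most `2 n ^ 3` gates does this without errors. (3) The real numbers and all flat orders are
tree-like, and the most precise extension of a function to a flat order is nondecreasing, so that it
is allowed at the gates. -/
theorem result :
    (∀ n : ℕ, 16 ≤ n → n * (univ.filter fun M : Fin n → Fin n → Bool =>
      ¬ ∀ δ : ℝ, 32 * Real.logb 2 n ≤ δ * n →
        ∀ (D : Type) [PartialOrder D], TreeLike D →
        ∀ (Ω : Type) [Fintype Ω] (p : Ω → ℝ) (l : Ω → List (Know (Fin n × Fin n) → D)),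
          (∀ ω, Circ (l ω)) → SolvesX M δ p l →
          δ ^ 2 * (n : ℝ) ^ 3 ≤
            768 * Real.logb 2 n ^ 2 * ∑ ω, p ω * ((l ω).length : ℝ)).card ≤ 2 ^ (n ^ 2)) ∧
    (∀ n : ℕ, 2 ≤ n → ∀ M : Fin n → Fin n → Bool,
      ∃ l : List (Know (Fin n × Fin n) → Flat Bool), Circ l ∧ l.length ≤ 2 * n ^ 3 ∧
      SolvesX M (1 / 2) (fun _ : Unit => 1) (fun _ => l)) ∧
    TreeLike ℝ ∧ ∀ A : Type, TreeLike (Flat A) ∧ (Nonempty A → ∀ (f : A → A → A)
      (x x' y y' : Flat A), x ≤ x' → y ≤ y' → Flat.ext f x y ≤ Flat.ext f x' y') := by
  refine ⟨fun n hn => ?_, fun n hn M => upperX hn M, treeLike_real,
    fun A => ⟨Flat.treeLike, fun hA f x x' y y' hx hy => Flat.ext_mono' f x x' y y' hx hy⟩⟩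
  refine le_trans (Nat.mul_le_mul_left n (card_le_card ?_))
    (Pool.Agent.H587R2.MRA.card_not_hard hn)
  intro M hM
  rw [mem_filter] at hM ⊢
  refine ⟨hM.1, fun hcon => hM.2 ?_⟩
  intro δ hδ D _ hD Ω _ p l hl hs
  exact lowerX hD hδ (fun m δ h Ω _ p P => hcon m δ h Ω p P) p l hl hs

end Pool.Agent.Results.MP_0f1f76_lc.UnknownInputCircuits
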