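import Pool.Agent.H698.UD.OMvF2

set_option autoImplicit false

/-!
# Online matrix-vector multiplication over `F_2`: memories that compute with unknown inputs

The `n × n` matrix over `F_2` is preprocessed, and then vectors arrive online. Each entry of the
matrix is known to be one, known to be zero, or unknown. A data structure (`FDS`) has `s` cells. After
every history (list of vectors that were answered) their contents are elements of an ordered set `D`
of states of knowledge and are arbitrary functions of the partial knowledge about the matrix which
respect the order: more knowledge about the matrix gives more knowledge in the memory. The functions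
may depend on the history in an arbitrary way, that is, preprocessing and updates are free. `D` is
any partially ordered set in which the elements below a given one form a chain of real numbers. When
a vector arrives, the structure reads cells adaptively and gives for each row the answer zero, one or
`unknown`; an answer does not change when the contents of the memory become larger.

If `D` is the flat order over an arbitrary set `A` (words, tables, codes, ...) then the cells contain
arbitrary functions of the matrix, for example parities, or `unknown` if the knowledge does not
determine them.

For all these models at once: if after some history the next vector is answered with unknown inputs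
with advantage `δ`, that is, each entry of the product is found with probability `1 / 2 + δ` as soon
as the entries of the matrix on which it depends are known, then
`δ n ^ 2 ≤ 4 t (log₂ (8 s / δ)) ^ 2` for the expected number `t` of cells read, `n ^ (2 - o(1))` per
vector for memories of size `2 ^ (n ^ o(1))`, as in the conjecture. The three-valued table of the
entries reads at most `n ^ 2` cells.

Proof. Consider the knowledge that all entries outside a set `U` are zero. The contents of each cell
are below its contents for `U = ∅`, so that they lie in a chain, and they decrease if `U` increases;
represent them by real numbers and change the sign. If the answer for the row `i` is zero although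
some entry `(i, j)`, `j` in the vector, is in `U`, then it is wrong for the matrix with a single one at
`(i, j)`. So the structure finds the Boolean product of `U` with the vector, and the bound for
monotone structures of `Pool.Graph.R_seed8.H525R4.Mono.OMvLower` applies.
-/

namespace Pool.Agent.Results.MP_0f1f76_lc.UnknownInputMemory

open Pool.Agent.H698.HF Pool.Agent.H698.UD
open Flat (unknown known)

/-- (1) Let `0 < δ ≤ 1 / 2` and let `D` be a tree-like order of states of knowledge. If a random
structure over `D` with `s` cells answers, after the history `h`, the next vector over `F_2` with
unknown inputs, advantage `δ` and `t` probes (`FSolves p S h δ t`) then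
`δ n ^ 2 ≤ 4 t (log₂ (8 s / δ)) ^ 2`. (2) For all `n` some three-valued structure with `n ^ 2` cells
does this after every history with `n ^ 2` probes and without errors. (3) The real numbers and all
flat orders are tree-like. -/
theorem result :
    (∀ (n s : ℕ) (δ t : ℝ), 0 < δ → δ ≤ 1 / 2 → ∀ (D : Type) [PartialOrder D], TreeLike D →
      ∀ (Ω : Type) [Fintype Ω] (p : Ω → ℝ) (S : Ω → FDS D n s) (h : List (Finset (Fin n))),
      FSolves p S h δ t → δ * (n : ℝ) ^ 2 ≤ 4 * t * (Real.logb 2 (8 * s / δ)) ^ 2) ∧
    (∀ n : ℕ, ∃ S : FDS (Flat Bool) n (n * n), ∀ h : List (Finset (Fin n)),
      FSolves (fun _ : Unit => 1) (fun _ => S) h (1 / 2) (n ^ 2) ∧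
      ∀ (P : Know (Fin n × Fin n)) (v : Finset (Fin n)), S.cost h P v ≤ n ^ 2 ∧
        ∀ i, S.out h P v i = if ∀ j ∈ v, P (i, j) ≠ none then known (par P v i) else unknown) ∧
    TreeLike ℝ ∧ ∀ A : Type, TreeLike (Flat A) :=
  ⟨fun n s δ t hδ hδ2 D _ hD Ω _ p S h hS => hS.lower hD hδ hδ2,
    fun n => ⟨ftable n, fun h => ⟨ftable_solves n h, fun P v => ⟨ftable_cost h P v,
      ftable_out h P v⟩⟩⟩, treeLike_real, fun A => Flat.treeLike⟩

end Pool.Agent.Results.MP_0f1f76_lc.UnknownInputMemory
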